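import Pool.Agent.V1167.GL.Ded
import Pool.Agent.V11291.GS.Plane

/-!
# When is `ζ_L / ζ_K` entire? Gaussian sums of its coefficients, and over prime powers

Let `K` and `L` be number fields, for instance `L/K` a finite extension, and `ζ_L(s) / ζ_K(s) = ∑ b_n n^{-s}` for
`Re s > 1`, with integers `b_n`. For `A ≥ 0`, `T > 0` consider the absolutely convergent Gaussian sums

`G_A(T) = (4πT)^{-1/2} ∑_n b_n (log n) n^A exp(-(log n)² / (4T))`,

`H_A(T) = (4πT)^{-1/2} (P_L(A, T) - P_K(A, T))`,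
`P_F(A, T) = ∑_{𝔭, k ≥ 1} (log N𝔭) N𝔭^{kA} exp(-(k log N𝔭)² / (4T))`, the sum over all primes `𝔭` of `F`.

The following are equivalent:

(a) `ζ_L / ζ_K` is an entire function (the question);

(b) for every `A ≥ 0` (equivalently: for arbitrarily large `A`) `G_A(T) = O(exp(ε T))` for every `ε > 0`;

(c) for every `A ≥ 0` (equivalently: for arbitrarily large `A`) there are finitely many points `β` in the sector
`|Im s| < Re s + A` and positive integers `m(β)` with `H_A(T) = -∑ m(β) exp((β + A)² T) + O(exp(ε T))` for every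
`ε > 0`; these are then the zeros of `ζ_L / ζ_K` in the sector with their multiplicities.

Moreover, for all `A, θ ≥ 0`: `ζ_L / ζ_K` is holomorphic in the region `Re (s + A)² > θ`, `Re s > -A`, that is, every zero of
`ζ_K` there is a zero of `ζ_L` of at least the same multiplicity, if and only if `G_A(T) = O(exp((θ + ε) T))` for every
`ε > 0`. So the rates of exponential growth of the sums `G_A(T)`, which are linear in the coefficients, locate the poles of
`ζ_L / ζ_K`. Nothing is assumed, neither the Riemann hypothesis nor the analytic continuation of the zeta functions. The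
criteria of `MP_9fc8a5_nt.ZetaQuotientByPrimes` concern a half plane and include the absence of zeros.
-/

set_option autoImplicit false

namespace Pool.Agent.Results.MP_9fc8a5_nt.GaussianQuotient

open Filter Topology Set NumberField IsDedekindDomain

/-- The sector `|Im s| < Re s + A`. -/
def Sector (A : ℝ) : Set ℂ := {s | |s.im| < s.re + A}

/-- The region `Re (s + A)² > θ`, `Re s > -A`. -/
def Region (A θ : ℝ) : Set ℂ := {s | -A < s.re ∧ θ < ((s + A) ^ 2).re}

/-- The Gaussian sum `G_A(T)` of the integers `b_n`. -/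
noncomputable def gaussCoeff (b : ArithmeticFunction ℤ) (A T : ℝ) : ℝ :=
  (Real.sqrt (4 * Real.pi * T))⁻¹ * ∑' n : ℕ, (b n : ℝ) *
    (Real.log n * (n : ℝ) ^ A * Real.exp (-(Real.log n ^ 2 / (4 * T))))

/-- `G_A(T) = O(exp((θ + ε) T))` for every `ε > 0`. -/
def GrowsAtMost (b : ArithmeticFunction ℤ) (A θ : ℝ) : Prop :=
  ∀ ε : ℝ, 0 < ε → ∃ C : ℝ, ∀ᶠ T : ℝ in atTop, |gaussCoeff b A T| ≤ C * Real.exp ((θ + ε) * T)

/-- `P_F(A, T)` -/
noncomputable def primeSum (F : Type) [Field F] [NumberField F] (A T : ℝ) : ℝ :=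
  ∑' q : HeightOneSpectrum (𝓞 F) × ℕ, Real.log (Ideal.absNorm q.1.asIdeal) *
    (Ideal.absNorm q.1.asIdeal : ℝ) ^ (A * (q.2 + 1)) *
      Real.exp (-(((q.2 + 1) * Real.log (Ideal.absNorm q.1.asIdeal)) ^ 2 / (4 * T)))

variable (K L : Type) [Field K] [NumberField K] [Field L] [NumberField L]

/-- `H_A(T)` -/
noncomputable def gaussPrimes (A T : ℝ) : ℝ :=
  (Real.sqrt (4 * Real.pi * T))⁻¹ * (primeSum L A T - primeSum K A T)

/-- `H_A(T) = -∑_{β ∈ Z} m(β) exp((β + A)² T) + O(exp(ε T))` for every `ε > 0`. -/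
def Expansion (A : ℝ) (Z : Finset ℂ) (m : ℂ → ℕ) : Prop :=
  ∀ ε : ℝ, 0 < ε → ∃ C : ℝ, ∀ᶠ T : ℝ in atTop,
    ‖(gaussPrimes K L A T : ℂ) + ∑ β ∈ Z, (m β : ℂ) * Complex.exp ((β + A) ^ 2 * T)‖ ≤
      C * Real.exp (ε * T)

/-- There is such an expansion with points `β` in the sector, `Re β ≤ 2`, and natural numbers `m(β)`. -/
def ZerosOnly (A : ℝ) : Prop :=
  ∃ (Z : Finset ℂ) (m : ℂ → ℕ), (∀ β ∈ Z, β ∈ Sector A ∧ β.re ≤ 2) ∧ Expansion K L A Z m

/-- `F ζ_K = ζ_L` in the half plane of absolute convergence. -/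
def IsQuotient (F : ℂ → ℂ) : Prop :=
  ∀ s : ℂ, 1 < s.re → F s * dedekindZeta K s = dedekindZeta L s

open Pool.Agent.V1167.GL Pool.Agent.V11291.GS

lemma hyp_eq {A θ : ℝ} (hθ : 0 ≤ θ) : Hyp A θ = Region A θ := by
  ext s
  change s + A ∈ Pool.Agent.V11291.GS.W θ ↔ -A < s.re ∧ θ < ((s + A) ^ 2).re
  rw [Pool.Agent.V11291.GS.W_iff hθ, Complex.add_re, Complex.ofReal_re]
  constructor
  · rintro ⟨h1, h2⟩
    exact ⟨by linarith, h2⟩
  · rintro ⟨h1, h2⟩
    exact ⟨by linarith, h2⟩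

/-- the coefficients -/
noncomputable def co (n : ℕ) : ℂ := ((quo K L n : ℤ) : ℂ)

lemma co_sum (σ : ℝ) (hσ : 1 < σ) : LSeriesSummable (co K L) σ :=
  (quo_spec K L (s := (σ : ℂ)) (by simpa using hσ)).1

lemma isq_iff (F : ℂ → ℂ) : IsQuotient K L F ↔ ∀ s : ℂ, 1 < s.re → F s = LSeries (co K L) s := by
  refine forall_congr' fun s => forall_congr' fun hs => ?_
  have h1 := (quo_spec K L hs).2
  have h2 := zeta_ne K hs
  change _ ↔ F s = LSeries (fun n => ((quo K L n : ℤ) : ℂ)) s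
  rw [← h1]
  exact ⟨fun h => mul_right_cancel₀ h2 h, fun h => by rw [h]⟩

lemma grows_iff (A θ : ℝ) :
    GrowsAtMost (quo K L) A θ ↔ Pool.Agent.V1167.GL.Sub (gs (co K L) A) θ := by
  have h : ∀ T : ℝ, (gaussCoeff (quo K L) A T : ℂ) = gs (co K L) A T := by
    intro T
    unfold gaussCoeff gs co
    rw [Complex.ofReal_mul, Complex.ofReal_tsum]
    congr 1
    refine tsum_congr fun n => ?_
    push_cast
    ring
  unfold GrowsAtMost Pool.Agent.V1167.GL.Sub
  simp only [← h, Complex.norm_real, Real.norm_eq_abs]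

/-- one field -/
lemma one_field (F : Type) [Field F] [NumberField F] {A T : ℝ} (hA : 0 ≤ A) (hT : 0 < T) :
    HasSum (fun q : HeightOneSpectrum (𝓞 F) × ℕ =>
      cA (xx fun v : HeightOneSpectrum (𝓞 F) => Pool.Agent.H921R2.TatePole.nm v)
        (cc fun _ (_ : Fin 1) => (1 : ℂ)) A q *
        (kr (xx (fun v : HeightOneSpectrum (𝓞 F) => Pool.Agent.H921R2.TatePole.nm v) q) T : ℂ))
      (((Real.sqrt (4 * Real.pi * T))⁻¹ * primeSum F A T : ℝ) : ℂ) := by
  have h1 := ((zeta_ep F (σ := 2) (by norm_num)).gd.shifted hA).G_summable hT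
  have h2 : ∑' q : HeightOneSpectrum (𝓞 F) × ℕ,
      cA (xx fun v : HeightOneSpectrum (𝓞 F) => Pool.Agent.H921R2.TatePole.nm v)
        (cc fun _ (_ : Fin 1) => (1 : ℂ)) A q *
        (kr (xx (fun v : HeightOneSpectrum (𝓞 F) => Pool.Agent.H921R2.TatePole.nm v) q) T : ℂ) =
      (((Real.sqrt (4 * Real.pi * T))⁻¹ * primeSum F A T : ℝ) : ℂ) := by
    unfold primeSum
    rw [← tsum_mul_left, Complex.ofReal_tsum]
    refine tsum_congr fun q => ?_
    have h2' := Pool.Agent.H921R2.TatePole.two_le_nm q.1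
    have hp0 : (0 : ℝ) < (Pool.Agent.H921R2.TatePole.nm q.1 : ℝ) := by
      exact_mod_cast (by omega : 0 < Pool.Agent.H921R2.TatePole.nm q.1)
    have h3 : (Ideal.absNorm q.1.asIdeal : ℝ) ^ (A * (q.2 + 1)) =
        Real.exp (A * xx (fun v : HeightOneSpectrum (𝓞 F) => Pool.Agent.H921R2.TatePole.nm v) q) := by
      change (Pool.Agent.H921R2.TatePole.nm q.1 : ℝ) ^ (A * (q.2 + 1)) = _
      rw [Real.rpow_def_of_pos hp0]
      congr 1
      unfold xx
      ring
    have h4 : ((q.2 : ℂ) + 1) ≠ 0 := by exact_mod_cast q.2.succ_ne_zero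
    change _ = (((Real.sqrt (4 * Real.pi * T))⁻¹ *
      (Real.log (Pool.Agent.H921R2.TatePole.nm q.1) * (Ideal.absNorm q.1.asIdeal : ℝ) ^ (A * (q.2 + 1)) *
        Real.exp (-(((q.2 + 1) * Real.log (Pool.Agent.H921R2.TatePole.nm q.1)) ^ 2 / (4 * T)))) : ℝ) : ℂ)
    rw [h3]
    unfold cA cc kr xx
    push_cast
    simp only [Finset.univ_unique, one_pow, Finset.sum_const, Finset.card_singleton, one_smul]
    field_simp
  rw [← h2]
  exact h1.hasSum

lemma gauss_eq {A T : ℝ} (hA : 0 ≤ A) (hT : 0 < T) : (gaussPrimes K L A T : ℂ) =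
    G (xq K L) (cA (xq K L) (cq K L) A) T := by
  have h1 := one_field L hA hT
  have h2 := (one_field K hA hT).neg
  have h3 : HasSum (fun i => cA (xq K L) (cq K L) A i * (kr (xq K L i) T : ℂ))
      ((((Real.sqrt (4 * Real.pi * T))⁻¹ * primeSum L A T : ℝ) : ℂ) +
        -(((Real.sqrt (4 * Real.pi * T))⁻¹ * primeSum K A T : ℝ) : ℂ)) := by
    refine HasSum.sum h1 (h2.congr_fun fun q => ?_)
    simp only [Function.comp_apply]
    unfold cA cq xq
    rw [Sum.elim_inr, Sum.elim_inr, Pi.neg_apply]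
    ring
  unfold G
  rw [h3.tsum_eq]
  unfold gaussPrimes
  push_cast
  ring

lemma expansion_iff {A : ℝ} (hA : 0 ≤ A) (Z : Finset ℂ) (m : ℂ → ℕ) :
    Expansion K L A Z m ↔ Ex (xq K L) (cq K L) A Z fun β => (m β : ℤ) := by
  unfold Expansion Ex
  refine forall_congr' fun ε => forall_congr' fun _ => exists_congr fun C => ?_
  refine eventually_congr ?_
  filter_upwards [eventually_gt_atTop 0] with T hT
  rw [gauss_eq K L hA hT]
  simp only [Int.cast_natCast]

instance cnt' (F : Type) [Field F] [NumberField F] : Countable (HeightOneSpectrum (𝓞 F)) := by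
  have h1 := (Pool.Agent.H921R2.TatePole.nm_summable (K := F) (x := 2) (by norm_num)).countable_support
  have h2 : Function.support (fun v : HeightOneSpectrum (𝓞 F) =>
      (Pool.Agent.H921R2.TatePole.nm v : ℝ) ^ (-(2 : ℝ))) = Set.univ := by
    ext v
    simp only [Function.mem_support, Set.mem_univ, iff_true]
    have := Pool.Agent.H921R2.TatePole.two_le_nm v
    have h3 : (0 : ℝ) < Pool.Agent.H921R2.TatePole.nm v := by
      exact_mod_cast (by omega : 0 < Pool.Agent.H921R2.TatePole.nm v)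
    exact (Real.rpow_pos_of_pos h3 _).ne'
  rw [h2] at h1
  exact Set.countable_univ_iff.1 h1

lemma exp_ll {s : ℂ} (hs : 2 ≤ s.re) :
    Complex.exp (ll (xq K L) (cq K L) s) = LSeries (co K L) s := by
  have h1 := ll_quo K L (σ := 2) (by norm_num) hs
  have h2 := (quo_spec K L (by linarith : 1 < s.re)).2
  exact mul_right_cancel₀ (zeta_ne K (by linarith : 1 < s.re)) (h1.trans h2.symm)

/-- zeros only ⟹ the linear criterion -/
lemma sub_of_zeros {A : ℝ} (hA : 0 ≤ A) (h : ZerosOnly K L A) : GrowsAtMost (quo K L) A 0 := by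
  have D := gd_quo K L (σ := 2) (by norm_num)
  obtain ⟨Z, m, hZ, hE⟩ := h
  obtain ⟨H, h1, h2⟩ := D.cw_of hA hZ ((expansion_iff K L hA Z m).1 hE)
  rw [grows_iff, ← dir_crit (a := co K L) (σa := 2) (by norm_num)
    (fun σ hσ => co_sum K L σ (by linarith)) hA le_rfl]
  refine ⟨fun s => H s * ∏ β ∈ Z, (s - β) ^ m β, fun s hs => ?_, fun s hs => ?_⟩
  · rw [Hyp_zero] at hs
    refine (h1 s hs).1.mul (DifferentiableAt.fun_finsetProd fun β _ => ?_)
    exact DifferentiableAt.pow (by fun_prop) _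
  · have h3 := h2 s hs
    simp only [zpow_natCast] at h3
    rw [← exp_ll K L hs.le]
    exact h3.symm

/-- an entire quotient has the expansion given by its zeros -/
lemma zeros_of {F : ℂ → ℂ} (hF : Differentiable ℂ F) (hF2 : IsQuotient K L F) {A : ℝ}
    (hA : 0 ≤ A) : ∃ Z : Finset ℂ, (∀ β : ℂ, β ∈ Z ↔ β ∈ Sector A ∧ F β = 0) ∧
      (∀ β ∈ Z, β ∈ Sector A ∧ β.re ≤ 2) ∧ Expansion K L A Z fun β => analyticOrderNatAt F β := by
  have D := gd_quo K L (σ := 2) (by norm_num)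
  have han : ∀ z : ℂ, AnalyticAt ℂ F z := fun z => hF.analyticAt z
  have hFe : ∀ s : ℂ, 2 ≤ s.re → F s = Complex.exp (ll (xq K L) (cq K L) s) := fun s hs => by
    rw [exp_ll K L hs]
    exact (isq_iff K L F).1 hF2 s (by linarith)
  obtain ⟨Z, h3, h4, h5⟩ := D.plane_ex (f := F) (fun z _ => (han z).meromorphicAt) (σ' := 2)
    (fun s hs => hFe s hs.le) hA
  have hne : ∀ z : ℂ, analyticOrderAt F z ≠ ⊤ := by
    intro z hz
    have h0 : F =ᶠ[𝓝 z] 0 := analyticOrderAt_eq_top.1 hz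
    have hAn : AnalyticOnNhd ℂ F Set.univ := fun w _ => han w
    have h1 := hAn.eqOn_zero_of_preconnected_of_eventuallyEq_zero isPreconnected_univ
      (Set.mem_univ z) h0
    have h2 : F 5 = 0 := h1 (Set.mem_univ _)
    rw [hFe 5 (by norm_num)] at h2
    exact Complex.exp_ne_zero _ h2
  have hord : ∀ β : ℂ, meromorphicOrderAt F β = ((analyticOrderNatAt F β : ℤ) : WithTop ℤ) := by
    intro β
    rw [(han β).meromorphicOrderAt_eq]
    obtain ⟨k, hk⟩ := ENat.ne_top_iff_exists.1 (hne β)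
    unfold analyticOrderNatAt
    rw [← hk]
    rfl
  refine ⟨Z, fun β => ?_, h4, ?_⟩
  · rw [h3 β, hord]
    have h7 : ((analyticOrderNatAt F β : ℤ) : WithTop ℤ) ≠ 0 ↔ F β = 0 := by
      have e1 : ((analyticOrderNatAt F β : ℤ) : WithTop ℤ) ≠ 0 ↔ analyticOrderNatAt F β ≠ 0 := by
        norm_cast
      rw [e1]
      unfold analyticOrderNatAt
      rw [Ne, ENat.toNat_eq_zero, not_or]
      constructor
      · rintro ⟨e2, -⟩
        exact (han β).analyticOrderAt_ne_zero.1 e2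
      · intro e2
        exact ⟨(han β).analyticOrderAt_ne_zero.2 e2, hne β⟩
    rw [h7]
    rfl
  · rw [expansion_iff K L hA]
    have h8 : (fun β => (meromorphicOrderAt F β).untop₀) = fun β => (analyticOrderNatAt F β : ℤ) := by
      funext β
      rw [hord]
      rfl
    rw [h8] at h5
    exact h5

/-- **Theorem.** Let `K` and `L` be number fields.

There are integers `b_n` with `∑ b_n n^{-s} = ζ_L(s) / ζ_K(s)`, absolutely convergent for `Re s > 1`, and the following are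
equivalent: (a) `ζ_L / ζ_K` extends to an entire function; (b) for every `A ≥ 0` `G_A(T) = O(exp(ε T))` for every `ε > 0`;
(b') the same for arbitrarily large `A`; (c) for every `A ≥ 0` there is an expansion
`H_A(T) = -∑ m(β) exp((β + A)² T) + O(exp(ε T))` with finitely many `β` in the sector and natural numbers `m(β)`; (c') the
same for arbitrarily large `A`.

For all `A, θ ≥ 0`: `ζ_L / ζ_K` extends to a function which is holomorphic in the union of the half plane `Re s > 1` and the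
region `Re (s + A)² > θ`, `Re s > -A`, if and only if `G_A(T) = O(exp((θ + ε) T))` for every `ε > 0`.

If `F` is an entire continuation of `ζ_L / ζ_K`, then for every `A ≥ 0` it has only finitely many zeros in the sector
`|Im s| < Re s + A`, and `H_A(T)` has the expansion with these zeros and their multiplicities. -/
theorem result (K L : Type) [Field K] [NumberField K] [Field L] [NumberField L] :
    (∃ b : ArithmeticFunction ℤ,
      (∀ s : ℂ, 1 < s.re → LSeriesSummable (fun n => ((b n : ℤ) : ℂ)) s ∧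
        LSeries (fun n => ((b n : ℤ) : ℂ)) s * dedekindZeta K s = dedekindZeta L s) ∧
      [(∃ F : ℂ → ℂ, Differentiable ℂ F ∧ IsQuotient K L F),
        (∀ A : ℝ, 0 ≤ A → GrowsAtMost b A 0),
        (∀ A₀ : ℝ, ∃ A : ℝ, A₀ ≤ A ∧ 0 ≤ A ∧ GrowsAtMost b A 0),
        (∀ A : ℝ, 0 ≤ A → ZerosOnly K L A),
        (∀ A₀ : ℝ, ∃ A : ℝ, A₀ ≤ A ∧ 0 ≤ A ∧ ZerosOnly K L A)].TFAE ∧
      ∀ A θ : ℝ, 0 ≤ A → 0 ≤ θ →
        ((∃ F : ℂ → ℂ, (∀ s : ℂ, s ∈ Region A θ ∨ 1 < s.re → DifferentiableAt ℂ F s) ∧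
          IsQuotient K L F) ↔ GrowsAtMost b A θ)) ∧
    ∀ F : ℂ → ℂ, Differentiable ℂ F → IsQuotient K L F → ∀ A : ℝ, 0 ≤ A →
      ∃ Z : Finset ℂ, (∀ β : ℂ, β ∈ Z ↔ β ∈ Sector A ∧ F β = 0) ∧
        Expansion K L A Z fun β => analyticOrderNatAt F β := by
  refine ⟨⟨quo K L, fun s hs => quo_spec K L hs, ?_, fun A θ hA hθ => ?_⟩,
    fun F hF hF2 A hA => ?_⟩
  · obtain ⟨h1, h2⟩ := dir_entire (a := co K L) (σa := 1) (by norm_num) (co_sum K L)
    simp only [← grows_iff, ← isq_iff] at h1 h2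
    tfae_have 1 ↔ 2 := h1
    tfae_have 1 ↔ 3 := h2
    tfae_have 1 → 4 := by
      rintro ⟨F, hF, hF2⟩ A hA
      obtain ⟨Z, -, e2, e3⟩ := zeros_of K L hF hF2 hA
      exact ⟨Z, _, e2, e3⟩
    tfae_have 4 → 5 := fun h A₀ =>
      ⟨max A₀ 0, le_max_left _ _, le_max_right _ _, h _ (le_max_right _ _)⟩
    tfae_have 5 → 3 := by
      intro h A₀
      obtain ⟨A, e1, e2, e3⟩ := h A₀
      exact ⟨A, e1, e2, sub_of_zeros K L e2 e3⟩
    tfae_finish
  · have h3 := dir_crit (a := co K L) (σa := 1) (by norm_num) (co_sum K L) hA hθ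
    rw [← grows_iff, hyp_eq hθ] at h3
    rw [← h3]
    refine exists_congr fun F => and_congr Iff.rfl (isq_iff K L F)
  · obtain ⟨Z, e1, -, e3⟩ := zeros_of K L hF hF2 hA
    exact ⟨Z, e1, e3⟩

end Pool.Agent.Results.MP_9fc8a5_nt.GaussianQuotient
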