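import Pool.Agent.V11217.NWO

/-!
# Zero-free half planes of `ζ_L / ζ_K` and a linear sum over prime ideals

Let `K` and `L` be number fields, for instance `L/K` a finite extension. For `h, n ≥ 1` let

`P_F(h, n) = ∑_{𝔭, k ≥ 1} (1/k) N𝔭^{-2k} (1 - N𝔭^{-hk})^n`,

the sum over all primes `𝔭` of `F`, and `Δ(h, n) = P_L(h, n) - P_K(h, n)`. This is linear in the numbers of prime
ideals of given norm, and it is the `n`-th difference with step `h` of the logarithms of the VALUES at the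
integers, `Δ(h, n) = ∑_{k ≤ n} (-1)^k (n choose k) log (ζ_L(2 + h k) / ζ_K(2 + h k))`. It is shown:

1. For every real `θ ≤ 1`, `ζ_L / ζ_K` has a holomorphic continuation `F` WITHOUT ZEROS to the half plane
   `Re s > θ`, of finite order (`log |F(s)| ≤ B (1 + |s|)^κ` in `Re s ≥ σ`, for every `σ > θ`), IF AND ONLY IF for
   every `0 < α < 2 - θ` there are `C, κ` with `|Δ(h, n)| ≤ C h^κ n^{-α/h}` for all `h, n ≥ 1`.
2. One step suffices for the existence: if `Δ(1, n)`, that is
   `∑_{𝔓, k} (1/k) N𝔓^{-2k} (1 - N𝔓^{-k})^n - ∑_{𝔭, k} (1/k) N𝔭^{-2k} (1 - N𝔭^{-k})^n`, is `O(n^{-α})` for all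
   `0 < α < 2 - θ`, then `ζ_L / ζ_K` is holomorphic and without zeros for `Re s > θ`.

For `θ = 1/2` the left hand side of 1 says (with the functional equations) that all zeros and poles of
`ζ_L / ζ_K` in the critical strip are on the line `Re s = 1/2`; for every `θ` it excludes poles of `ζ_L / ζ_K` in
`Re s > θ`. Nothing is assumed, neither the analytic
continuation of the zeta functions nor anything on their zeros. The trivial bound is `|Δ(h, n)| ≤ C n^{-α/h}` for
`α < 1`.

Proof. `log (ζ_L / ζ_K)(2 + w)` is an absolutely convergent general Dirichlet series for `Re w > -1`. If the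
differences are small, then Newton's interpolation series with step `h` converge in the larger half plane, where
they all agree, and those with `h ∼ |w|` give the growth. Conversely the logarithm of the continuation has
polynomial growth by the theorem of Borel and Carathéodory, and the differences are the integrals of Nörlund and
Rice.
-/

set_option autoImplicit false

namespace Pool.Agent.Results.MP_9fc8a5_nt.LogarithmsAtIntegers

open Filter Topology Set NumberField IsDedekindDomain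

/-- The norm of `v`. -/
noncomputable def nrm {F : Type} [Field F] [NumberField F] (v : HeightOneSpectrum (𝓞 F)) : ℕ :=
  Ideal.absNorm v.asIdeal

/-- `P_F(h, n)`; the second component `j` of the index stands for the exponent `k = j + 1`. -/
noncomputable def primeSum (F : Type) [Field F] [NumberField F] (h n : ℕ) : ℝ :=
  ∑' q : HeightOneSpectrum (𝓞 F) × ℕ, 1 / ((q.2 : ℝ) + 1) * (nrm q.1 : ℝ) ^ (-(2 * ((q.2 : ℝ) + 1))) *
    (1 - (nrm q.1 : ℝ) ^ (-(h * ((q.2 : ℝ) + 1)))) ^ n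

variable (K L : Type) [Field K] [NumberField K] [Field L] [NumberField L]

/-- `Δ(h, n)`. -/
noncomputable def difference (h n : ℕ) : ℝ := primeSum L h n - primeSum K h n

/-- The bound `C h^κ n^{-α/h}` for `Δ(h, n)`, for all `h` and all `n`. -/
def SmallDifferences (α : ℝ) : Prop :=
  ∃ (C : ℝ) (κ : ℕ), ∀ h n : ℕ, 1 ≤ h → 1 ≤ n →
    |difference K L h n| ≤ C * (h : ℝ) ^ κ * (n : ℝ) ^ (-(α / h))

/-- `F` is holomorphic and without zeros for `Re s > θ`, and `F ζ_K = ζ_L` in the half plane of absolute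
convergence. -/
def IsContinuation (θ : ℝ) (F : ℂ → ℂ) : Prop :=
  (∀ s : ℂ, θ < s.re → DifferentiableAt ℂ F s ∧ F s ≠ 0) ∧
    ∀ s : ℂ, 1 < s.re → F s * dedekindZeta K s = dedekindZeta L s

/-- `F` is of finite order in the half planes `Re s ≥ σ`, `σ > θ`. -/
def FiniteOrder (θ : ℝ) (F : ℂ → ℂ) : Prop :=
  ∀ σ : ℝ, θ < σ → ∃ (B : ℝ) (κ : ℕ), ∀ s : ℂ, σ ≤ s.re → ‖F s‖ ≤ Real.exp (B * (1 + ‖s‖) ^ κ)

open Pool.Agent.V1167.GL Pool.Agent.V11217.NW
open Pool.Agent.H921R2.TatePole (nm two_le_nm)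

theorem primeSum_eq (F : Type) [Field F] [NumberField F] (h n : ℕ) :
    D (Fz F) h n = ((primeSum F h n : ℝ) : ℂ) := by
  rw [D_Fz]
  unfold primeSum
  congr 1
  refine tsum_congr fun q => ?_
  have hp : (0 : ℝ) < nrm q.1 := by
    have : (2 : ℝ) ≤ nrm q.1 := by exact_mod_cast two_le_nm q.1
    linarith
  unfold cz xz
  rw [Real.rpow_def_of_pos hp, Real.rpow_def_of_pos hp]
  change 1 / ((q.2 : ℝ) + 1) * Real.exp (-(2 * (((q.2 : ℝ) + 1) * Real.log (nrm q.1)))) *
    (1 - Real.exp (-(h * (((q.2 : ℝ) + 1) * Real.log (nrm q.1))))) ^ n = _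
  congr 3
  · congr 1
    ring
  · congr 2
    ring

/-- the quotient -/
noncomputable def quot (s : ℂ) : ℂ := dedekindZeta L s / dedekindZeta K s

theorem quot_diff {s : ℂ} (hs : 1 < s.re) : DifferentiableAt ℂ (quot K L) s := by
  have hq : ∀ s : ℂ, 1 < s.re → quot K L s = LSeries (fun n => ((quo K L n : ℤ) : ℂ)) s := by
    intro s hs
    have h1 := (quo_spec K L hs).2
    have h2 := zeta_ne K hs
    unfold quot
    rw [← h1]
    field_simp
  have h1 : LSeries.abscissaOfAbsConv (fun n => ((quo K L n : ℤ) : ℂ)) < s.re := by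
    have h2 := LSeriesSummable.abscissaOfAbsConv_le (s := (((1 + s.re) / 2 : ℝ) : ℂ))
      (quo_spec K L (by rw [Complex.ofReal_re]; linarith)).1
    refine h2.trans_lt ?_
    rw [Complex.ofReal_re]
    exact_mod_cast (by linarith : (1 + s.re) / 2 < s.re)
  have h3 := (LSeries_hasDerivAt h1).differentiableAt
  refine h3.congr_of_eventuallyEq ?_
  filter_upwards [(isOpen_lt continuous_const Complex.continuous_re).mem_nhds hs] with z hz
  exact hq z hz

/-- the logarithm -/
noncomputable def Fq (w : ℂ) : ℂ := Fz L w + -Fz K w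

theorem exp_Fq {w : ℂ} (hw : -(1 / 4) ≤ w.re) : Complex.exp (Fq K L w) = quot K L (2 + w) := by
  unfold Fq quot
  rw [← sub_eq_add_neg, Complex.exp_sub, exp_Fz L hw, exp_Fz K hw]

theorem rep : ∃ (ι : Type) (_ : Countable ι) (c : ι → ℂ) (l : ι → ℝ), Rep (1 / 4) (Fq K L) c l := by
  have := countable_primes K
  have := countable_primes L
  exact ⟨_, inferInstance, _, _, (Fz_rep L).add (Fz_rep K).neg⟩

theorem diff_eq (h n : ℕ) : D (Fq K L) h n = ((difference K L h n : ℝ) : ℂ) := by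
  unfold difference
  rw [Complex.ofReal_sub, ← primeSum_eq, ← primeSum_eq]
  unfold D Fq
  rw [← Finset.sum_sub_distrib]
  refine Finset.sum_congr rfl fun k _ => ?_
  ring

theorem small_iff (α : ℝ) :
    SmallDifferences K L α ↔ ∃ (C : ℝ) (κ : ℕ), DB (Fq K L) α C κ := by
  unfold SmallDifferences DB
  simp only [diff_eq, Complex.norm_real, Real.norm_eq_abs]

theorem isq {F : ℂ → ℂ} (s : ℂ) (hs : 1 < s.re) :
    F s * dedekindZeta K s = dedekindZeta L s ↔ F s = quot K L s := by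
  have h2 := zeta_ne K hs
  unfold quot
  rw [eq_div_iff h2]

theorem growth {G : ℂ → ℂ} {B : ℝ} {κ : ℕ} {σ : ℝ} {z : ℂ} (hz : ‖z‖ ≤ 2)
    (h : ∀ s : ℂ, σ ≤ s.re → ‖G s‖ ≤ Real.exp (B * (1 + ‖s‖) ^ κ)) :
    ∀ s : ℂ, σ ≤ (s + z).re → ‖G (s + z)‖ ≤ Real.exp (|B| * 3 ^ κ * (1 + ‖s‖) ^ κ) := by
  intro s hs
  refine (h _ hs).trans (Real.exp_le_exp.2 ?_)
  have h5 : 1 + ‖s + z‖ ≤ 3 * (1 + ‖s‖) := by
    have := norm_add_le s z
    have := norm_nonneg s
    linarith
  calc B * (1 + ‖s + z‖) ^ κ ≤ |B| * (3 * (1 + ‖s‖)) ^ κ :=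
        mul_le_mul (le_abs_self B) (pow_le_pow_left₀ (by positivity) h5 _) (by positivity)
          (abs_nonneg _)
    _ = _ := by rw [mul_pow]; ring

theorem cont_iff {θ : ℝ} (hθ : θ ≤ 1) :
    (∃ F : ℂ → ℂ, IsContinuation K L θ F ∧ FiniteOrder θ F) ↔
      ∃ G : ℂ → ℂ, FreeContinuation (Fq K L) (2 - θ) G := by
  constructor
  · rintro ⟨F, ⟨h1, h2⟩, h3⟩
    refine ⟨fun w => F (w + 2), fun w hw => ?_, fun w hw => ?_, fun w hw => ?_, fun α hα => ?_⟩
    · have h4 : DifferentiableAt ℂ F (w + 2) := (h1 _ (by rw [re_p]; linarith)).1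
      exact DifferentiableAt.comp (f := fun w : ℂ => w + 2) w h4 (by fun_prop)
    · exact (h1 _ (by rw [re_p]; linarith)).2
    · rw [exp_Fq K L (by linarith), add_comm 2 w]
      exact (isq K L _ (by rw [re_p]; linarith)).1 (h2 _ (by rw [re_p]; linarith))
    · obtain ⟨B, κ, h4⟩ := h3 (2 - α) (by linarith)
      exact ⟨_, κ, fun w hw => growth (z := 2) (by simp) h4 w (by rw [re_p]; linarith)⟩
  · rintro ⟨G, h1, h2, h3, h4⟩
    have h0 : ∀ s : ℂ, θ < s.re → DifferentiableAt ℂ (fun s => G (s + -2)) s := by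
      intro s hs
      have h4 : DifferentiableAt ℂ G (s + -2) := h1 _ (by rw [re_m]; linarith)
      exact DifferentiableAt.comp (f := fun s : ℂ => s + -2) s h4 (by fun_prop)
    refine ⟨fun s => G (s + -2), ⟨fun s hs => ⟨h0 s hs, h2 _ (by rw [re_m]; linarith)⟩,
      fun s hs => (isq K L (F := fun s => G (s + -2)) s hs).2 ?_⟩, fun σ hσ => ?_⟩
    · refine agree (σ := 1) (τ := 2) (fun s hs => h0 s (by linarith)) (fun s hs => quot_diff K L hs)
        (fun s hs => ?_) s hs
      rw [h3 (s + -2) (by rw [re_m]; linarith), exp_Fq K L (by rw [re_m]; linarith)]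
      congr 1
      ring
    · obtain ⟨B, κ, h5⟩ := h4 (2 - σ) (by linarith)
      exact ⟨_, κ, fun s hs => growth (z := -2) (by simp) h5 s (by rw [re_m]; linarith)⟩

/-- **Theorem.** Let `K`, `L` be number fields.

(0) The values `ζ_K(m), ζ_L(m)`, `m ≥ 2`, are positive real numbers, and
`Δ(h, n) = ∑_{k ≤ n} (-1)^k (n choose k) (log ζ_L(2 + h k) - log ζ_K(2 + h k))`.

(1) For every `θ ≤ 1`, `ζ_L / ζ_K` has a holomorphic continuation without zeros to `Re s > θ`, of finite order in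
`Re s ≥ σ` for all `σ > θ`, if and only if for all `0 < α < 2 - θ` the sums `Δ(h, n)` are `O(h^κ n^{-α/h})` for
some `κ`, uniformly in `h, n ≥ 1`.

(2) If `Δ(1, n) = O(n^{-α})` for all `0 < α < 2 - θ`, `θ ≤ 1`, then `ζ_L / ζ_K` has a holomorphic continuation
without zeros to `Re s > θ`. -/
theorem result :
    ((∀ m : ℕ, 2 ≤ m → (0 < (dedekindZeta K m).re ∧ (dedekindZeta K m).im = 0) ∧
        (0 < (dedekindZeta L m).re ∧ (dedekindZeta L m).im = 0)) ∧
      ∀ h n : ℕ, difference K L h n = ∑ k ∈ Finset.range (n + 1), (-1 : ℝ) ^ k * (n.choose k : ℝ) *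
        (Real.log (dedekindZeta L (2 + h * k)).re - Real.log (dedekindZeta K (2 + h * k)).re)) ∧
    (∀ θ : ℝ, θ ≤ 1 → ((∃ F : ℂ → ℂ, IsContinuation K L θ F ∧ FiniteOrder θ F) ↔
      ∀ α : ℝ, 0 < α → α < 2 - θ → SmallDifferences K L α)) ∧
    (∀ θ : ℝ, θ ≤ 1 → (∀ α : ℝ, 0 < α → α < 2 - θ →
        ∃ C : ℝ, ∀ n : ℕ, 1 ≤ n → |difference K L 1 n| ≤ C * (n : ℝ) ^ (-α)) →
      ∃ F : ℂ → ℂ, IsContinuation K L θ F) := by
  obtain ⟨ι, hι, c, l, R⟩ := rep K L
  refine ⟨⟨fun m hm => ?_, fun h n => ?_⟩, fun θ hθ => ?_, fun θ hθ H => ?_⟩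
  · obtain ⟨j, rfl⟩ := Nat.exists_eq_add_of_le hm
    have h1 := Fz_real K j
    have h2 := Fz_real L j
    have e : ((2 + j : ℕ) : ℂ) = 2 + (j : ℂ) := by push_cast; rfl
    rw [e]
    exact ⟨⟨h1.1, h1.2.1⟩, h2.1, h2.2.1⟩
  · have h1 := diff_eq K L h n
    unfold D Fq at h1
    have h2 : (((∑ k ∈ Finset.range (n + 1), (-1 : ℝ) ^ k * (n.choose k : ℝ) *
        (Real.log (dedekindZeta L (2 + h * k)).re - Real.log (dedekindZeta K (2 + h * k)).re) : ℝ)) : ℂ) =
        ((difference K L h n : ℝ) : ℂ) := by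
      rw [← h1]
      push_cast
      refine Finset.sum_congr rfl fun k _ => ?_
      have e1 := (Fz_real L (h * k)).2.2
      have e2 := (Fz_real K (h * k)).2.2
      push_cast at e1 e2
      rw [e1, e2, sub_eq_add_neg]
    exact (Complex.ofReal_injective h2).symm
  · rw [cont_iff K L hθ]
    simp only [small_iff]
    exact free_criterion (R.mono (by norm_num : (1 / 8 : ℝ) ≤ 1 / 4)) (by norm_num) (ε₁ := 1 / 4)
      (by norm_num) (fun w hw => R.diff hw) (by linarith)
  · have h2 := one_step_free R (by norm_num) (c₀ := 2 - θ) (by linarith) (fun α h1 h2 => by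
      obtain ⟨C, hC⟩ := H α h1 h2
      exact ⟨C, fun n hn => by
        rw [diff_eq, Complex.norm_real, Real.norm_eq_abs]
        exact hC n hn⟩)
    have h0 : ∀ s : ℂ, θ < s.re →
        DifferentiableAt ℂ (fun s => Complex.exp (G (Fq K L) 1 (s + -2))) s := by
      intro s hs
      have h4 : DifferentiableAt ℂ (G (Fq K L) 1) (s + -2) := h2.1 _ (by rw [re_m]; linarith)
      exact (DifferentiableAt.comp (f := fun s : ℂ => s + -2) s h4 (by fun_prop)).cexp
    refine ⟨fun s => Complex.exp (G (Fq K L) 1 (s + -2)), fun s hs => ⟨h0 s hs, Complex.exp_ne_zero _⟩,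
      fun s hs => (isq K L (F := fun s => Complex.exp (G (Fq K L) 1 (s + -2))) s hs).2 ?_⟩
    refine agree (σ := 1) (τ := 2) (fun s hs => h0 s (by linarith)) (fun s hs => quot_diff K L hs)
      (fun s hs => ?_) s hs
    rw [h2.2 (s + -2) (by rw [re_m]; linarith), exp_Fq K L (by rw [re_m]; linarith)]
    congr 1
    ring

end Pool.Agent.Results.MP_9fc8a5_nt.LogarithmsAtIntegers
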