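import Pool.Agent.V1167.GL.Ded
import Pool.Agent.V11217.NWM

/-!
# When is `ζ_L / ζ_K` entire? The values at the integers

Let `K` and `L` be number fields, for instance `L/K` a finite extension. Only the VALUES `q_k = ζ_L(k) / ζ_K(k)` at
the integers `k = 2, 3, 4, …` are used. For `h, n ≥ 1` let

`Δ(h, n) = ∑_{k ≤ n} (-1)^k (n choose k) q_{2 + h k}`

be the `n`-th difference with step `h` of these numbers at the point `2`. It is shown:

1. For every real `θ ≤ 1`, `ζ_L / ζ_K` is holomorphic in the half plane `Re s > θ` (every zero of `ζ_K` there is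
   a zero of `ζ_L` of at least the same multiplicity), and of polynomial growth in `Re s ≥ σ` for every `σ > θ`,
   IF AND ONLY IF for every `0 < α < 2 - θ` there are `C, κ` with `|Δ(h, n)| ≤ C h^κ n^{-α/h}` for all
   `h, n ≥ 1`.
2. `ζ_L / ζ_K` is entire, of polynomial growth in every right half plane (the growth which the functional
   equation gives), IF AND ONLY IF this holds for every `α > 0`.
3. One step suffices for the holomorphy: if `∑_{k ≤ n} (-1)^k (n choose k) q_{2 + k}` is `O(n^{-α})` for all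
   `0 < α < 2 - θ` (for all `α`), then `ζ_L / ζ_K` is holomorphic for `Re s > θ` (entire).

Nothing is assumed, neither the analytic continuation of the zeta functions nor anything on their zeros. The
trivial bound is `|Δ(h, n)| ≤ C n^{-α/h}` for `α < 1`.

Proof. `ζ_L(s) / ζ_K(s)` is a Dirichlet series, absolutely convergent for `Re s > 1`. If the differences are
small, then Newton's interpolation series with step `h` converge in the larger half plane, where they all agree,
and the series with the step `h ∼ |s|` gives the growth. Conversely the differences are the integrals of Nörlund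
and Rice, `2π Δ(h, n) = ∫ (ζ_L / ζ_K)(2 - h s) B(s, n + 1)`, over the line `Re s = α/h`, with the beta
function `B`.
-/

set_option autoImplicit false

namespace Pool.Agent.Results.MP_9fc8a5_nt.ValuesAtIntegers

open Filter Topology Set NumberField IsDedekindDomain

variable (K L : Type) [Field K] [NumberField K] [Field L] [NumberField L]

/-- The `n`-th difference with step `h` of the numbers `ζ_L(k) / ζ_K(k)`, `k = 2, 2 + h, 2 + 2 h, …`. -/
noncomputable def difference (h n : ℕ) : ℂ :=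
  ∑ k ∈ Finset.range (n + 1), (-1 : ℂ) ^ k * (n.choose k : ℂ) *
    (dedekindZeta L (2 + h * k) / dedekindZeta K (2 + h * k))

/-- The bound `C h^κ n^{-α/h}` for the differences, for all steps `h` and all orders `n`. -/
def SmallDifferences (α : ℝ) : Prop :=
  ∃ (C : ℝ) (κ : ℕ), ∀ h n : ℕ, 1 ≤ h → 1 ≤ n →
    ‖difference K L h n‖ ≤ C * (h : ℝ) ^ κ * (n : ℝ) ^ (-(α / h))

/-- `F ζ_K = ζ_L` in the half plane of absolute convergence. -/
def IsQuotient (F : ℂ → ℂ) : Prop :=
  ∀ s : ℂ, 1 < s.re → F s * dedekindZeta K s = dedekindZeta L s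

/-- `F` is of polynomial growth in the half plane `Re s ≥ σ`. -/
def PolynomialGrowth (F : ℂ → ℂ) (σ : ℝ) : Prop :=
  ∃ (B : ℝ) (κ : ℕ), ∀ s : ℂ, σ ≤ s.re → ‖F s‖ ≤ B * (1 + ‖s‖) ^ κ

open Pool.Agent.V1167.GL Pool.Agent.V11217.NW

/-- the quotient -/
noncomputable def quot (s : ℂ) : ℂ := dedekindZeta L s / dedekindZeta K s

theorem quot_eq {s : ℂ} (hs : 1 < s.re) : quot K L s = LSeries (fun n => ((quo K L n : ℤ) : ℂ)) s := by
  have h1 := (quo_spec K L hs).2
  have h2 := zeta_ne K hs
  unfold quot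
  rw [← h1]
  field_simp

theorem rep : ∃ (c : ℕ → ℂ) (l : ℕ → ℝ), Rep (1 / 4) (fun w => quot K L (2 + w)) c l := by
  obtain ⟨c, l, R⟩ := lseries_rep (a := fun n => ((quo K L n : ℤ) : ℂ)) (fun s hs => (quo_spec K L hs).1)
  exact ⟨c, l, R.congr fun w hw => quot_eq K L (by
    rw [Complex.add_re, Complex.re_ofNat]
    linarith)⟩

theorem quot_diff {s : ℂ} (hs : 1 < s.re) : DifferentiableAt ℂ (quot K L) s := by
  have h1 : LSeries.abscissaOfAbsConv (fun n => ((quo K L n : ℤ) : ℂ)) < s.re := by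
    have h2 := LSeriesSummable.abscissaOfAbsConv_le (s := (((1 + s.re) / 2 : ℝ) : ℂ))
      (quo_spec K L (by rw [Complex.ofReal_re]; linarith)).1
    refine h2.trans_lt ?_
    rw [Complex.ofReal_re]
    exact_mod_cast (by linarith : (1 + s.re) / 2 < s.re)
  have h3 := (LSeries_hasDerivAt h1).differentiableAt
  refine h3.congr_of_eventuallyEq ?_
  filter_upwards [(isOpen_lt continuous_const Complex.continuous_re).mem_nhds hs] with z hz
  exact quot_eq K L hz

theorem isq_iff (F : ℂ → ℂ) : IsQuotient K L F ↔ ∀ s : ℂ, 1 < s.re → F s = quot K L s := by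
  refine forall_congr' fun s => forall_congr' fun hs => ?_
  have h2 := zeta_ne K hs
  unfold quot
  rw [eq_div_iff h2]

theorem diff_eq (h n : ℕ) : D (fun w => quot K L (2 + w)) h n = difference K L h n := by
  unfold D difference quot
  refine Finset.sum_congr rfl fun k _ => ?_
  push_cast
  rfl

theorem small_iff (α : ℝ) :
    SmallDifferences K L α ↔ ∃ (C : ℝ) (κ : ℕ), DB (fun w => quot K L (2 + w)) α C κ := by
  unfold SmallDifferences DB
  simp only [diff_eq]

/-- **Theorem.** Let `K`, `L` be number fields.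

(1) For every `θ ≤ 1`, `ζ_L / ζ_K` has a holomorphic continuation to `Re s > θ`, of polynomial growth in
`Re s ≥ σ` for all `σ > θ`, if and only if for all `0 < α < 2 - θ` the differences
`∑_{k ≤ n} (-1)^k (n choose k) ζ_L(2 + h k) / ζ_K(2 + h k)` are `O(h^κ n^{-α/h})` for some `κ`, uniformly in
`h, n ≥ 1`.

(2) `ζ_L / ζ_K` has an entire continuation, of polynomial growth in every right half plane, if and only if this
holds for all `α > 0`.

(3) If `∑_{k ≤ n} (-1)^k (n choose k) ζ_L(2 + k) / ζ_K(2 + k) = O(n^{-α})` for all `0 < α < 2 - θ`, then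
`ζ_L / ζ_K` has a holomorphic continuation to `Re s > θ`; if this holds for all `α`, it is entire. -/
theorem result :
    (∀ θ : ℝ, θ ≤ 1 →
      ((∃ F : ℂ → ℂ, (∀ s : ℂ, θ < s.re → DifferentiableAt ℂ F s) ∧ IsQuotient K L F ∧
        ∀ σ : ℝ, θ < σ → PolynomialGrowth F σ) ↔
      ∀ α : ℝ, 0 < α → α < 2 - θ → SmallDifferences K L α)) ∧
    ((∃ F : ℂ → ℂ, Differentiable ℂ F ∧ IsQuotient K L F ∧ ∀ σ : ℝ, PolynomialGrowth F σ) ↔
      ∀ α : ℝ, 0 < α → SmallDifferences K L α) ∧
    (∀ θ : ℝ, θ ≤ 1 →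
      (∀ α : ℝ, 0 < α → α < 2 - θ →
        ∃ C : ℝ, ∀ n : ℕ, 1 ≤ n → ‖difference K L 1 n‖ ≤ C * (n : ℝ) ^ (-α)) →
      ∃ F : ℂ → ℂ, (∀ s : ℂ, θ < s.re → DifferentiableAt ℂ F s) ∧ IsQuotient K L F) ∧
    ((∀ α : ℝ, ∃ C : ℝ, ∀ n : ℕ, 1 ≤ n → ‖difference K L 1 n‖ ≤ C * (n : ℝ) ^ (-α)) →
      ∃ F : ℂ → ℂ, Differentiable ℂ F ∧ IsQuotient K L F) := by
  obtain ⟨cc, l, R⟩ := rep K L
  have hd : ∀ s : ℂ, 1 < s.re → DifferentiableAt ℂ (quot K L) s := fun s hs => quot_diff K L hs
  simp only [isq_iff, small_iff]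
  refine ⟨fun θ hθ => ?_, ?_, fun θ hθ H => ?_, fun H => ?_⟩
  · rw [← half_plane R hd (by norm_num) (c := 2 - θ) (by linarith) (by linarith)]
    have e : 2 - (2 - θ) = θ := by ring
    rw [e]
    constructor
    · rintro ⟨F, h1, h2, h3⟩
      exact ⟨F, h1, h2, fun α hα => h3 (2 - α) (by linarith)⟩
    · rintro ⟨F, h1, h2, h3⟩
      refine ⟨F, h1, h2, fun σ hσ => ?_⟩
      obtain ⟨B, κ, h⟩ := h3 (2 - σ) (by linarith)
      exact ⟨B, κ, fun s hs => h s (by linarith)⟩
  · exact whole_plane R hd (by norm_num)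
  · obtain ⟨F, h1, h2⟩ := one_step_half R hd (c := 2 - θ) (by linarith) (by linarith) (fun α h1 h2 => by
      obtain ⟨C, hC⟩ := H α h1 h2
      exact ⟨C, fun n hn => by rw [diff_eq]; exact hC n hn⟩)
    exact ⟨F, fun s hs => h1 s (by linarith), h2⟩
  · exact one_step_whole R hd (fun α => by
      obtain ⟨C, hC⟩ := H α
      exact ⟨C, fun n hn => by rw [diff_eq]; exact hC n hn⟩)

end Pool.Agent.Results.MP_9fc8a5_nt.ValuesAtIntegers
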