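import Pool.Agent.V11288.QU.Ded

/-!
# The quotient `ζ_L/ζ_K` and the primes

Let `L/K` be any finite extension of number fields.  Let `Z_L(s) = (s - 1) ζ_L(s)` and
`Z_K(s) = (s - 1) ζ_K(s)`; by Hecke's theorem these are entire functions of polynomial growth on every half
plane `Re s > σ - η`, which is what is used about them (`IsZeta`; the Dedekind zeta functions are given for
`Re s > 1` by their Euler products).  Let `M = Z_L/Z_K = ζ_L/ζ_K`, and for real `t` and `Y > 1`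

`S_t(Y) = ∑_{N𝔓^k ≤ Y} Re (N𝔓^{-k(σ+it)})/k - ∑_{N𝔭^k ≤ Y} Re (N𝔭^{-k(σ+it)})/k`

(`𝔓` runs over the primes of `L`, `𝔭` over the primes of `K`, `k ≥ 1`), the logarithm of the absolute value of
the quotient of the partial Euler products at `σ + it`, and

`I(t, r, A) = ∫_1^∞ (S_t(Y) + r (log log Y + γ) - log A)² dY/Y`.

It is shown for all real `σ`:

1. Let `r(t)`, `A(t) > 0` be arbitrary real functions.  `ζ_L/ζ_K` has neither zeros nor poles with
   `Re s > σ`, and for every real `t` its order at `σ + it` is `r(t)` and the absolute value of the leading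
   coefficient is `A(t)`, IF AND ONLY IF `I(t, r(t), A(t))` is finite for every `t`.

2. If `I(t, r, A)` is finite, it is equal to
   `(1/π) ∫_{-∞}^∞ (½ log |M(σ + i(t+u))| + ½ log |M(σ + i(t-u))| - r log |u| - log A)² du/u²`.

3. `ζ_L/ζ_K` is holomorphic on the closed half plane `Re s ≥ σ` and has no zeros in the open half plane
   `Re s > σ` IF AND ONLY IF for every real `t` the integral `I(t, r, A)` is finite for some `A > 0` and some
   `r ≥ 0`.  For `σ = 1/2` the left side is, by the functional equations: `ζ_L/ζ_K` is entire and satisfies the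
   Riemann hypothesis.

4. `ζ_L/ζ_K` has neither zeros nor poles with `Re s > σ` IF AND ONLY IF the integral at the single real point
   `t = 0` is finite for some `A > 0` and some `r`; more precisely, `I(0, r, A)` is finite if and only if
   there are neither zeros nor poles with `Re s > σ`, and the order at `σ` is `r` and the leading coefficient
   has the absolute value `A`.

The common zeros of `ζ_L` and `ζ_K` do not enter: the mean square sees exactly the zeros and poles of the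
quotient.  For extensions `L/K` where the holomorphy is known (for example Galois extensions) these are
criteria for the Riemann hypothesis of the quotient.

Proof.  `I(t, r, A)` is the norm of `(log M(σ + s) - r log s - log A)/s` in the Hardy space of `Re s > 0` (for
`t ≠ 0` one uses `M(σ + it + s) conj M(σ + it + conj s)`).  If `M` has neither zeros nor poles there, the
common zeros of `Z_L` and `Z_K` are removed by Blaschke factors on discs of bounded radius, and the local mean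
square of `log M` is bounded by Jensen's inequality (library `Pool.Agent.V11288.QU`).
-/

set_option autoImplicit false

namespace Pool.Agent.Results.MP_9fc8a5_nt.ZetaQuotientByPrimes

open Filter Topology MeasureTheory Set NumberField IsDedekindDomain

variable {F : Type} [Field F] [NumberField F]

/-- The norm of the prime `v`. -/
noncomputable def nrm (v : HeightOneSpectrum (𝓞 F)) : ℕ := Ideal.absNorm v.asIdeal

/-- `Z(s) = (s - 1) ζ_F(s)`, where `ζ_F` is given by its Euler product for `Re s > 1`, and `Z` is holomorphic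
and of polynomial growth on a half plane `Re s > σ - η`. -/
structure IsZeta (F : Type) [Field F] [NumberField F] (σ : ℝ) (Z : ℂ → ℂ) : Prop where
  prod : ∀ s : ℂ, 1 < s.re →
    HasProd (fun v : HeightOneSpectrum (𝓞 F) => (1 - (nrm v : ℂ) ^ (-s))⁻¹) (Z s / (s - 1))
  cont : ∃ (η C : ℝ) (κ : ℕ), 0 < η ∧ ∀ s : ℂ, σ - η < s.re →
    DifferentiableAt ℂ Z s ∧ ‖Z s‖ ≤ C * (1 + ‖s‖) ^ κ

/-- The sum of `Re ((N v)^{-k(σ+it)})/k` over the primes `v` of `F` and `k ≥ 1` (here `k = p.2 + 1`) with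
`(N v)^k ≤ Y` (a finite sum). -/
noncomputable def primeSum (F : Type) [Field F] [NumberField F] (σ t Y : ℝ) : ℝ :=
  ∑' p : HeightOneSpectrum (𝓞 F) × ℕ, if (nrm p.1 : ℝ) ^ (p.2 + 1) ≤ Y then
    ((nrm p.1 : ℂ) ^ (-(((p.2 : ℂ) + 1) * (σ + t * Complex.I)))).re / ((p.2 : ℝ) + 1) else 0

/-- `I(t, r, A) = ∫_1^∞ (S_t(Y) + r (γ + log log Y) - log A)² dY/Y ∈ [0, ∞]`. -/
noncomputable def meanSquare (K L : Type) [Field K] [NumberField K] [Field L] [NumberField L]
    (σ t r A : ℝ) : ENNReal :=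
  ∫⁻ Y in Ioi (1 : ℝ), ENNReal.ofReal
    ((primeSum L σ t Y - primeSum K σ t Y +
      r * (Real.eulerMascheroniConstant + Real.log (Real.log Y)) - Real.log A) ^ 2 / Y)

/-- The meromorphic function `Z₁/Z₂` has neither zeros nor poles with `Re s > σ`. -/
def NoZerosNoPoles (Z₁ Z₂ : ℂ → ℂ) (σ : ℝ) : Prop :=
  ∀ s : ℂ, σ < s.re → meromorphicOrderAt (fun s => Z₁ s / Z₂ s) s = 0

/-- The order of `Z₁/Z₂` at `c` is the integer `r` and `A` is the absolute value of the leading coefficient: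
`|Z₁(s)/Z₂(s)| / |s - c|^r → A` for `s → c`. -/
def LeadingAt (Z₁ Z₂ : ℂ → ℂ) (c : ℂ) (r A : ℝ) : Prop :=
  ∃ k : ℤ, r = k ∧ Tendsto (fun s : ℂ => ‖Z₁ s / Z₂ s‖ / ‖s - c‖ ^ k) (𝓝[≠] c) (𝓝 A)

open Pool.Agent.V11288.QU

theorem exp_eq {σ : ℝ} {Z : ℂ → ℂ} (h : IsZeta F σ Z) {s : ℂ} (hs : 1 < s.re) :
    Complex.exp (∑' p : PP F, cD p * Complex.exp (-(s * lamD p))) = Z s / (s - 1) :=
  (prodD hs).unique (h.prod s hs)

theorem isQ {K L : Type} [Field K] [NumberField K] [Field L] [NumberField L] {σ : ℝ} {ZK ZL : ℂ → ℂ}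
    (hK : IsZeta K σ ZK) (hL : IsZeta L σ ZL) :
    IsQ (Sum.elim (lamD (F := L)) (lamD (F := K))) (Sum.elim cD fun j => -cD j) σ ZL ZK := by
  obtain ⟨c, hc, hlow⟩ := lowD (F := K)
  obtain ⟨η₁, C₁, κ₁, hη₁, h₁⟩ := hL.cont
  obtain ⟨η₂, C₂, κ₂, hη₂, h₂⟩ := hK.cont
  refine ⟨⟨min η₁ η₂, |C₁| + |C₂|, κ₁ + κ₂, lt_min hη₁ hη₂, fun s hs => ?_⟩, 2, c⁻¹, 0, fun s hs => ⟨?_, ?_⟩⟩
  · have m1 := min_le_left η₁ η₂
    have m2 := min_le_right η₁ η₂
    obtain ⟨d1, g1⟩ := h₁ s (by linarith)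
    obtain ⟨d2, g2⟩ := h₂ s (by linarith)
    have h6 : (1 : ℝ) ≤ 1 + ‖s‖ := by linarith [norm_nonneg s]
    have p1 : (1 + ‖s‖) ^ κ₁ ≤ (1 + ‖s‖) ^ (κ₁ + κ₂) := pow_le_pow_right₀ h6 (Nat.le_add_right _ _)
    have p2 : (1 + ‖s‖) ^ κ₂ ≤ (1 + ‖s‖) ^ (κ₁ + κ₂) := pow_le_pow_right₀ h6 (Nat.le_add_left _ _)
    have c1 : C₁ ≤ |C₁| + |C₂| := by linarith [le_abs_self C₁, abs_nonneg C₂]
    have c2 : C₂ ≤ |C₁| + |C₂| := by linarith [le_abs_self C₂, abs_nonneg C₁]
    refine ⟨d1, d2, ?_, ?_⟩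
    · calc ‖ZL s‖ ≤ C₁ * (1 + ‖s‖) ^ κ₁ := g1
        _ ≤ (|C₁| + |C₂|) * (1 + ‖s‖) ^ κ₁ := by gcongr
        _ ≤ _ := by gcongr
    · calc ‖ZK s‖ ≤ C₂ * (1 + ‖s‖) ^ κ₂ := g2
        _ ≤ (|C₁| + |C₂|) * (1 + ‖s‖) ^ κ₂ := by gcongr
        _ ≤ _ := by gcongr
  · have hs1 : 1 < s.re := by linarith
    have hne : s - 1 ≠ 0 := by
      intro h
      have h3 : s = 1 := sub_eq_zero.1 h
      rw [h3] at hs1
      norm_num at hs1
    rw [tsum_sub s (summD hs1) (summD hs1), Complex.exp_sub, exp_eq hL hs1, exp_eq hK hs1]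
    by_cases hz : ZK s = 0
    · rw [hz]
      simp
    · field_simp
  · have hs1 : 1 < s.re := by linarith
    have h3 := hlow s hs.le
    rw [exp_eq hK hs1, norm_div] at h3
    have h4 : 1 ≤ ‖s - 1‖ := by
      have := Complex.abs_re_le_norm (s - 1)
      rw [Complex.sub_re, Complex.one_re] at this
      have h3 := le_abs_self (s.re - 1)
      linarith
    rw [le_div_iff₀ (by linarith)] at h3
    rw [pow_zero, mul_one, inv_mul_eq_div, le_div_iff₀ hc, one_mul]
    have : c * 1 ≤ c * ‖s - 1‖ := mul_le_mul_of_nonneg_left h4 hc.le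
    linarith

theorem primeSum_eq (σ t : ℝ) {Y : ℝ} (hY : 1 < Y) : primeSum F σ t Y = lA (lamD (F := F)) cD σ t Y := by
  unfold primeSum lA
  refine tsum_congr fun p => ?_
  have h2 := nm2 p.1
  have h0 : (0 : ℝ) < Pool.Agent.H921R2.TatePole.nm p.1 := by linarith
  have e1 : (nrm p.1 : ℝ) ^ (p.2 + 1) ≤ Y ↔ lamD p ≤ Real.log Y := by
    have e2 : lamD p = Real.log ((nrm p.1 : ℝ) ^ (p.2 + 1)) := by
      rw [Real.log_pow]
      unfold lamD nrm
      push_cast
      rfl
    rw [e2]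
    have h3 : (0 : ℝ) < (nrm p.1 : ℝ) ^ (p.2 + 1) := pow_pos h0 _
    exact (Real.log_le_log_iff h3 (by linarith)).symm
  simp only [e1]
  split_ifs
  · have hc : (Pool.Agent.H921R2.TatePole.nm p.1 : ℂ) ≠ 0 := by exact_mod_cast h0.ne'
    have hl : Complex.log (Pool.Agent.H921R2.TatePole.nm p.1 : ℂ) =
        (Real.log (Pool.Agent.H921R2.TatePole.nm p.1) : ℂ) := by
      rw [Complex.ofReal_log h0.le]
      push_cast
      rfl
    have e3 : (nrm p.1 : ℂ) ^ (-(((p.2 : ℂ) + 1) * (σ + t * Complex.I))) =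
        Complex.exp (-((σ + t * Complex.I) * lamD p)) := by
      change (Pool.Agent.H921R2.TatePole.nm p.1 : ℂ) ^ (-(((p.2 : ℂ) + 1) * (σ + t * Complex.I))) = _
      rw [Complex.cpow_def_of_ne_zero hc, hl]
      congr 1
      unfold lamD
      push_cast
      ring
    rw [e3]
    unfold cD
    rw [Complex.re_ofReal_mul]
    ring
  · rfl

theorem ms_eq (K L : Type) [Field K] [NumberField K] [Field L] [NumberField L] (σ t r A : ℝ) :
    meanSquare K L σ t r A = mS (Sum.elim (lamD (F := L)) (lamD (F := K))) (Sum.elim cD fun j => -cD j)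
      σ t r A := by
  unfold meanSquare mS
  refine setLIntegral_congr_fun measurableSet_Ioi fun Y hY => ?_
  simp only [lA_sub serD serD, primeSum_eq σ t hY]

/-- **The quotient `ζ_L/ζ_K` and the primes.** -/
theorem result (K L : Type) [Field K] [NumberField K] [Field L] [NumberField L] [Algebra K L]
    (σ : ℝ) (ZK ZL : ℂ → ℂ) (hK : IsZeta K σ ZK) (hL : IsZeta L σ ZL) :
    (∀ r A : ℝ → ℝ, (∀ t, 0 < A t) →
      ((NoZerosNoPoles ZL ZK σ ∧ ∀ t : ℝ, LeadingAt ZL ZK (σ + t * Complex.I) (r t) (A t)) ↔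
        ∀ t : ℝ, meanSquare K L σ t (r t) (A t) < ⊤)) ∧
    (∀ t r A : ℝ, 0 < A → meanSquare K L σ t r A < ⊤ →
      meanSquare K L σ t r A = ENNReal.ofReal Real.pi⁻¹ * ∫⁻ u : ℝ, ENNReal.ofReal
        (((Real.log ‖ZL (σ + (t + u) * Complex.I) / ZK (σ + (t + u) * Complex.I)‖ +
          Real.log ‖ZL (σ + (t - u) * Complex.I) / ZK (σ + (t - u) * Complex.I)‖) / 2 -
            r * Real.log |u| - Real.log A) ^ 2 / u ^ 2)) ∧
    ((NoZerosNoPoles ZL ZK σ ∧
        ∀ s : ℂ, s.re = σ → 0 ≤ meromorphicOrderAt (fun s => ZL s / ZK s) s) ↔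
      ∀ t : ℝ, ∃ r A : ℝ, 0 < A ∧ 0 ≤ r ∧ meanSquare K L σ t r A < ⊤) ∧
    (NoZerosNoPoles ZL ZK σ ↔ ∃ r A : ℝ, 0 < A ∧ meanSquare K L σ 0 r A < ⊤) ∧
    ∀ r A : ℝ, 0 < A →
      ((NoZerosNoPoles ZL ZK σ ∧ LeadingAt ZL ZK σ r A) ↔ meanSquare K L σ 0 r A < ⊤) := by
  have hQ := isQ hK hL
  have hS : Ser (Sum.elim (lamD (F := L)) (lamD (F := K))) (Sum.elim cD fun j => -cD j) := serD.sub serD
  have hr : ∀ i, (Sum.elim (cD (F := L)) (fun j => -cD (F := K) j) i).im = 0 := by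
    rintro (i | j)
    · simp [cD]
    · simp [cD]
  simp only [ms_eq]
  exact ⟨fun r A hA => Li.all hS hQ r A hA, fun t r A hA hf => Li.formula hS hQ t r hA hf, Li.holo hS hQ,
    Li.real_iff hS hr hQ, fun r A hA => Li.real_point hS hr hQ r hA⟩

end Pool.Agent.Results.MP_9fc8a5_nt.ZetaQuotientByPrimes
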